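import Pool.Agent.LPW.StmtsF

/-!
# Squad LPW, row NM2: the norms in a two-parameter family
-/

set_option autoImplicit false

open Polynomial NumberField
open Pool.Agent.Helper85_Leo (LeopoldtAt)
open Pool.Agent.LUB (FullRank sp spr Exceptional Fam MainStmt SphStmt SpfStmt BndStmt DepStmt)

namespace Pool.Agent.LPW.H95

theorem nm2 : Nm2Stmt := by
  intro hC hU hN n r D f u hf
  obtain ⟨hm, hn, hfD, hu⟩ := hf
  have key : ∀ i, ∃ g : (MvPolynomial (Fin 2) ℤ)[X], g.Monic ∧ g.natDegree = n ∧
      (∀ l, (g.coeff l).totalDegree ≤ n * (D + D * D)) ∧ f ∣ g.comp (u i) ∧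
      ∀ (S : Type) [CommRing S] [IsDomain S] (φ : MvPolynomial (Fin 2) ℤ →+* S) (θ : Fin n → S),
        Function.Injective θ → f.map φ = ∏ j, (X - C (θ j)) →
        g.map φ = ∏ j, (X - C (((u i).map φ).eval (θ j))) := by
    intro i
    obtain ⟨g, h1, h2, h3, h4, h5⟩ := hC (MvPolynomial (Fin 2) ℤ)
      (fun a => (MvPolynomial.restrictTotalDegree (Fin 2) ℤ a).toAddSubgroup)
      (by
        intro a b hab x hx
        rw [Submodule.mem_toAddSubgroup, MvPolynomial.mem_restrictTotalDegree] at hx ⊢
        exact le_trans hx hab)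
      (by
        rw [Submodule.mem_toAddSubgroup, MvPolynomial.mem_restrictTotalDegree]
        exact le_of_eq MvPolynomial.totalDegree_one)
      (by
        intro a b x y hx hy
        rw [Submodule.mem_toAddSubgroup, MvPolynomial.mem_restrictTotalDegree] at hx hy ⊢
        exact le_trans (MvPolynomial.totalDegree_mul x y) (Nat.add_le_add hx hy))
      n D f (u i) hm hn
      (by
        intro j
        rw [Submodule.mem_toAddSubgroup, MvPolynomial.mem_restrictTotalDegree]
        exact hfD j)
      (hu i).1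
      (by
        intro j
        rw [Submodule.mem_toAddSubgroup, MvPolynomial.mem_restrictTotalDegree]
        exact (hu i).2 j)
    refine ⟨g, h1, h2, fun l => ?_, h4, h5⟩
    have := h3 l
    rw [Submodule.mem_toAddSubgroup, MvPolynomial.mem_restrictTotalDegree] at this
    exact this
  choose g hg1 hg2 hg3 hg4 hg5 using key
  by_cases hall : ∀ i, (g i).coeff 0 ^ 2 = 1
  · right
    have h := fun i => hU _ f (u i) (g i) (hg4 i) (hall i)
    choose v b hvb using h
    exact ⟨v, b, hvb⟩
  · left
    obtain ⟨i, hi⟩ := not_forall.1 hall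
    refine ⟨(g i).coeff 0 ^ 2 - 1, sub_ne_zero.2 hi, ?_, ?_⟩
    · refine le_trans (MvPolynomial.totalDegree_sub _ _) (max_le ?_ ?_)
      · exact le_trans (MvPolynomial.totalDegree_pow _ _) (Nat.mul_le_mul_left 2 (hg3 i 0))
      · rw [MvPolynomial.totalDegree_one]
        exact Nat.zero_le _
    · intro p _ P hP
      obtain ⟨K, hK1, hK2, θ, h1, h2, h3, h4, -, -⟩ := hP
      have e0 : (Int.castRingHom ℤ) = RingHom.id ℤ := Subsingleton.elim _ _
      obtain ⟨ψ, hψ⟩ : ∃ ψ : MvPolynomial (Fin 2) ℤ →+* ℤ,
        ψ = MvPolynomial.eval₂Hom (Int.castRingHom ℤ) P := ⟨_, rfl⟩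
      have hψe : ∀ a, ψ a = MvPolynomial.eval P a := by
        intro a
        rw [hψ, e0]
        rfl
      have hs : ∀ h : (MvPolynomial (Fin 2) ℤ)[X], spr2 h P = h.map ψ := by
        intro h
        rw [hψ]
        rfl
      have hsq : (ψ ((g i).coeff 0)) ^ 2 = 1 := by
        refine hN n (spr2 f P) (spr2 (u i) P) _ ?_ ?_ ?_ ⟨K, hK1, hK2, θ, h1, h2, h3, h4 i⟩
        · rw [hs]
          exact hm.map ψ
        · rw [hs, hm.natDegree_map ψ, hn]
        · intro θ' hθ hinj
          rw [hs, Polynomial.map_map] at hθ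
          have h5 := hg5 i ℂ ((Int.castRingHom ℂ).comp ψ) θ' hinj hθ
          have h6 := congrArg (Polynomial.eval 0) h5
          rw [← Polynomial.coeff_zero_eq_eval_zero, Polynomial.coeff_map, Polynomial.eval_prod]
            at h6
          have h7 : ∏ j, Polynomial.eval 0 (X - C ((Polynomial.map ((Int.castRingHom ℂ).comp ψ)
              (u i)).eval (θ' j))) = (-1) ^ n * ∏ j, ((spr2 (u i) P).map
                (Int.castRingHom ℂ)).eval (θ' j) := by
            rw [hs, Polynomial.map_map]
            have : (-1 : ℂ) ^ n = ∏ _j : Fin n, (-1 : ℂ) := by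
              rw [Finset.prod_const, Finset.card_univ, Fintype.card_fin]
            rw [this, ← Finset.prod_mul_distrib]
            refine Finset.prod_congr rfl fun j _ => ?_
            rw [Polynomial.eval_sub, Polynomial.eval_X, Polynomial.eval_C]
            ring
          rw [h7] at h6
          have h8 : ((ψ ((g i).coeff 0) : ℤ) : ℂ) = (-1) ^ n * ∏ j, ((spr2 (u i) P).map
                (Int.castRingHom ℂ)).eval (θ' j) := h6
          rcases neg_one_pow_eq_or ℂ n with h9 | h9
          · left
            rw [h8, h9, one_mul]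
          · right
            rw [h8, h9, neg_one_mul]
      rw [← hψe, map_sub, map_pow, map_one, hsq, sub_self]

end Pool.Agent.LPW.H95
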