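import Pool.Agent.LPW.StmtsC

/-! Squad LPW, row CLS: points in one residue class. -/

set_option autoImplicit false

namespace Pool.Agent.LPW.H95

open Polynomial Pool.Agent.LPW

theorem cls : ClsStmt := by
  intro hAbs hIft l hl G L N e hlt P₁ hG Z hZ
  obtain ⟨τ, hτ⟩ := hIft l hl.out G P₁ hG (ee 1 L)
  refine hAbs l 1 L 1 N one_pos e (by rw [one_mul]; exact hlt) Z (fun P hP => (hZ P hP).1)
    ⟨fun a => C ((C ((P₁ 0 : ℤ) : ℤ_[l]) + X) ^ (e a 0) *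
      (τ.map (Int.castRingHom ℤ_[l])) ^ (e a 1)), 0, ?_, ?_⟩
  · intro a
    rw [natDegree_C]
    exact one_pos
  · intro P hP
    obtain ⟨_, hP0, hP1⟩ := hZ P hP
    obtain ⟨t, ht⟩ := hP1 0
    refine ⟨(t : ℤ_[l]), 0, ?_⟩
    intro a
    have hv : (0 : ℤ_[l]) + (l : ℤ_[l]) ^ 1 * (t : ℤ_[l]) = ((P 0 - P₁ 0 : ℤ) : ℤ_[l]) := by
      rw [ht]
      push_cast
      ring
    rw [hv, map_C, eval_C, coe_evalRingHom, eval_mul, eval_pow, eval_pow, eval_add, eval_C, eval_X,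
      one_mul]
    have h1 : ((P₁ 0 : ℤ) : ℤ_[l]) + ((P 0 - P₁ 0 : ℤ) : ℤ_[l]) = ((P 0 : ℤ) : ℤ_[l]) := by
      push_cast
      ring
    have h2 : eval ((P 0 - P₁ 0 : ℤ) : ℤ_[l]) (τ.map (Int.castRingHom ℤ_[l])) =
        ((τ.eval (P 0 - P₁ 0) : ℤ) : ℤ_[l]) := by
      have := eval_intCast_map (Int.castRingHom ℤ_[l]) τ (P 0 - P₁ 0)
      rw [this]
      rfl
    rw [h1, h2]
    have h3 : (l : ℤ) ^ ee 1 L ∣ P 0 ^ e a 0 * (τ.eval (P 0 - P₁ 0)) ^ e a 1 -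
        P 0 ^ e a 0 * P 1 ^ e a 1 := by
      rw [← mul_sub]
      refine Dvd.dvd.mul_left ?_ _
      refine dvd_trans ?_ (sub_dvd_pow_sub_pow _ _ _)
      rw [← neg_sub, dvd_neg]
      exact hτ P hP0 hP1
    have h4 := map_dvd (Int.castRingHom ℤ_[l]) h3
    simpa using h4

end Pool.Agent.LPW.H95
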